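import Pool.Agent.H848.PD.Structure

/-!
# Integer valued positive definite functions on `A × ℚ` with the Haar measure as the second projection
-/

set_option autoImplicit false

namespace Pool.Agent.H848.PD

section
variable {Γ : Type} [AddCommGroup Γ]

/-- a function described by finitely many data -/
noncomputable def decode (d : Finset Γ × Finset (Γ × ℤ)) (x : Γ) : ℤ := by
  classical
  exact if h : ∃ a ∈ d.2, x - a.1 ∈ AddSubgroup.closure (d.1 : Set Γ) then h.choose.2 else 0

theorem exists_decode {p : Γ → ℤ} (hp : IsElementary p) (hfg : hp.pd.periods.FG) :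
    ∃ d, decode d = p := by
  classical
  obtain ⟨S, hS⟩ := hfg
  obtain ⟨s, hs⟩ := hp.fin
  refine ⟨(S, s.image fun a => (a, p a)), ?_⟩
  funext x
  unfold decode
  have hmem : ∀ z, z ∈ AddSubgroup.closure (S : Set Γ) ↔ p z = p 0 := by
    intro z
    rw [hS]
    rfl
  split_ifs with h
  · obtain ⟨h1, h2⟩ := h.choose_spec
    obtain ⟨a, _, ha⟩ := Finset.mem_image.1 h1
    rw [← ha] at h2 ⊢
    simp only at h2 ⊢
    rw [hmem] at h2
    have h3 := hp.pd.period h2 a
    rw [add_sub_cancel] at h3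
    exact h3.symm
  · by_contra hx
    obtain ⟨a, ha, ha'⟩ := hs x (Ne.symm hx)
    exact h ⟨(a, p a), Finset.mem_image_of_mem _ ha, (hmem _).2 ha'⟩

/-- the sum over a finite family for a sum of positive definite functions -/
theorem IsPD.family {b : Γ → ℤ} (hb : IsPD b) {ι : Type*} (s : Finset ι) (g : ι → Γ)
    (u : ι → ℝ) : 0 ≤ ∑ i ∈ s, ∑ j ∈ s, u i * u j * (b (g i - g j) : ℝ) := by
  classical
  have h := hb.nonneg (∑ i ∈ s, Finsupp.single (g i) (u i))
  have e1 : ∀ (F : Γ → ℝ → ℝ), (∀ k, F k 0 = 0) → (∀ k x y, F k (x + y) = F k x + F k y) →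
      (∑ i ∈ s, Finsupp.single (g i) (u i)).sum F = ∑ i ∈ s, F (g i) (u i) := by
    intro F h0 hadd
    rw [← Finsupp.sum_finsetSum_index h0 hadd]
    exact Finset.sum_congr rfl fun i _ => Finsupp.sum_single_index (h0 _)
  rw [e1 (fun k x => (∑ i ∈ s, Finsupp.single (g i) (u i)).sum fun k' y =>
    x * y * (b (k - k') : ℝ))] at h
  · refine h.trans_eq (Finset.sum_congr rfl fun i _ => ?_)
    rw [e1 (fun k' y => u i * y * (b (g i - k') : ℝ))]
    · intro k; simp
    · intro k x y; ring
  · intro k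
    simp [Finsupp.sum]
  · intro k x y
    rw [← Finsupp.sum_add]
    refine Finsupp.sum_congr fun k' _ => ?_
    ring

end

section
variable {A : Type} [AddCommGroup A]

/-- the periods in `ℚ` have bounded denominators modulo `ℤ` -/
theorem exists_mul {c : A × ℚ → ℤ} (hc : IsPD c) {M : ℕ} (hM : ∀ q : ℚ, (∀ k : ℤ, q ≠ k) → c (0, q) = 0)
    (hM0 : c (0, 0) ≤ M) {L : List (A × ℚ → ℤ)} (hL : ∀ p ∈ L, IsElementary p)
    (hsum : ∀ g, c g = (L.map fun p => p g).sum) {p : A × ℚ → ℤ} (hp : p ∈ L) {q : ℚ}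
    (hq : p (0, q) = p 0) : ∃ j : ℕ, 1 ≤ j ∧ j ≤ M ∧ ∃ k : ℤ, (j : ℚ) * q = k := by
  classical
  by_contra hcon
  push Not at hcon
  -- the multiples are different modulo `ℤ`
  have hmul : ∀ i : ℤ, p (0, (i : ℚ) * q) = p 0 := by
    intro i
    have h1 : (0, q) ∈ (hL p hp).pd.periods := hq
    have h2 := AddSubgroup.zsmul_mem _ h1 i
    have h3 : i • ((0 : A), q) = (0, (i : ℚ) * q) := by
      rw [Prod.smul_mk, smul_zero, zsmul_eq_mul]
    rw [h3] at h2
    exact h2
  have hle : ∀ (l : List (A × ℚ → ℤ)), (∀ p ∈ l, IsElementary p) → ∀ (s : Finset ℕ)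
      (g : ℕ → A × ℚ), 0 ≤ ∑ i ∈ s, ∑ j ∈ s, (((l.map fun p => p (g i - g j)).sum : ℤ) : ℝ) := by
    intro l
    induction l with
    | nil => intro _ s g; simp
    | cons p' l ih =>
      intro hl s g
      have h1 := ih (fun x hx => hl x (List.mem_cons_of_mem _ hx)) s g
      have h2 := (hl p' List.mem_cons_self).pd.family s g (fun _ => 1)
      simp only [List.map_cons, List.sum_cons, Int.cast_add, Finset.sum_add_distrib]
      simp only [one_mul, mul_one] at h2
      linarith
  obtain ⟨L₁, L₂, rfl⟩ := List.append_of_mem hp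
  set s := Finset.range (M + 1)
  set g : ℕ → A × ℚ := fun i => (0, (i : ℚ) * q) with hg
  have hgd : ∀ i j : ℕ, g i - g j = (0, (((i : ℤ) - (j : ℤ) : ℤ) : ℚ) * q) := by
    intro i j
    rw [hg]
    simp only [Prod.mk_sub_mk, sub_zero]
    congr 1
    push_cast
    ring
  have h1 : ∑ i ∈ s, ∑ j ∈ s, ((p (g i - g j) : ℤ) : ℝ) ≤ ∑ i ∈ s, ∑ j ∈ s, (c (g i - g j) : ℝ) := by
    have h2 := hle (L₁ ++ L₂) (fun x hx => by
      rcases List.mem_append.1 hx with h | h
      · exact hL x (List.mem_append_left _ h)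
      · exact hL x (List.mem_append_right _ (List.mem_cons_of_mem _ h))) s g
    have h3 : ∀ i j, (c (g i - g j) : ℝ) = ((p (g i - g j) : ℤ) : ℝ) +
        ((((L₁ ++ L₂).map fun p => p (g i - g j)).sum : ℤ) : ℝ) := by
      intro i j
      rw [hsum, List.map_append, List.sum_append, List.map_cons, List.sum_cons, List.map_append,
        List.sum_append]
      push_cast
      ring
    simp only [h3, Finset.sum_add_distrib]
    linarith
  have h2 : ∑ i ∈ s, ∑ j ∈ s, ((p (g i - g j) : ℤ) : ℝ) = (M + 1) * (M + 1) * (p 0 : ℝ) := by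
    simp only [hgd, hmul]
    rw [Finset.sum_const, Finset.sum_const, Finset.card_range]
    simp only [nsmul_eq_mul]
    push_cast
    ring
  have h3 : ∑ i ∈ s, ∑ j ∈ s, (c (g i - g j) : ℝ) = (M + 1) * (c (0, 0) : ℝ) := by
    have h4 : ∀ i ∈ s, ∑ j ∈ s, (c (g i - g j) : ℝ) = (c (0, 0) : ℝ) := by
      intro i hi
      rw [Finset.sum_eq_single i]
      · rw [sub_self]
        rfl
      · intro j hj hji
        rw [hgd, hM, Int.cast_zero]
        intro k hk
        rcases lt_or_gt_of_ne hji with h | h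
        · refine hcon (i - j) (by omega) (by
            have := Finset.mem_range.1 hi
            omega) k ?_
          rw [← hk, Nat.cast_sub h.le]
          push_cast
          ring
        · refine hcon (j - i) (by omega) (by
            have := Finset.mem_range.1 hj
            omega) (-k) ?_
          rw [Int.cast_neg, ← hk, Nat.cast_sub h.le]
          push_cast
          ring
      · exact fun h => absurd hi h
    rw [Finset.sum_congr rfl h4, Finset.sum_const, Finset.card_range, nsmul_eq_mul]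
    push_cast
    ring
  rw [h2, h3] at h1
  have h5 : (1 : ℝ) ≤ p 0 := by exact_mod_cast (hL p hp).pos
  have h6 : (c (0, 0) : ℝ) ≤ M := by exact_mod_cast hM0
  have hM' : (0 : ℝ) ≤ M := Nat.cast_nonneg M
  nlinarith

/-- the groups of periods are finitely generated -/
theorem periods_fg [Module.Finite ℤ A] {c : A × ℚ → ℤ} (hc : IsPD c) {M : ℕ}
    (hM : ∀ q : ℚ, (∀ k : ℤ, q ≠ k) → c (0, q) = 0)
    (hM0 : c (0, 0) ≤ M) {L : List (A × ℚ → ℤ)} (hL : ∀ p ∈ L, IsElementary p)
    (hsum : ∀ g, c g = (L.map fun p => p g).sum) {p : A × ℚ → ℤ} (hp : p ∈ L) :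
    (hL p hp).pd.periods.FG := by
  classical
  set H := (hL p hp).pd.periods with hH
  rw [← AddSubgroup.toIntSubmodule_toAddSubgroup H, ← Submodule.fg_iff_addSubgroup_fg]
  set f : A × ℚ →ₗ[ℤ] A := LinearMap.fst ℤ A ℚ with hf
  refine Submodule.fg_of_fg_map_of_fg_inf_ker f ?_ ?_
  · exact IsNoetherian.noetherian _
  · -- the kernel is contained in a cyclic group
    set D : ℚ := (M.factorial : ℚ) with hD
    have hD0 : D ≠ 0 := by
      rw [hD]
      exact_mod_cast M.factorial_ne_zero
    set e : ℤ →ₗ[ℤ] A × ℚ := LinearMap.toSpanSingleton ℤ (A × ℚ) (0, D⁻¹) with he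
    have hle : AddSubgroup.toIntSubmodule H ⊓ LinearMap.ker f ≤ LinearMap.range e := by
      rintro ⟨a, q⟩ ⟨h1, h2⟩
      have ha : a = 0 := h2
      subst ha
      have h3 : p (0, q) = p 0 := h1
      obtain ⟨j, hj1, hj2, k, hk⟩ := exists_mul hc hM hM0 hL hsum hp h3
      obtain ⟨m, hm⟩ := Nat.dvd_factorial (by omega : 0 < j) hj2
      refine ⟨m * k, ?_⟩
      rw [he, LinearMap.toSpanSingleton_apply, Prod.smul_mk, smul_zero, zsmul_eq_mul]
      congr 1
      rw [← div_eq_mul_inv, div_eq_iff hD0, hD, hm]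
      push_cast
      rw [← hk]
      ring
    have h4 : (AddSubgroup.toIntSubmodule H ⊓ LinearMap.ker f) =
        Submodule.map e (Submodule.comap e (AddSubgroup.toIntSubmodule H ⊓ LinearMap.ker f)) := by
      rw [Submodule.map_comap_eq, inf_eq_right.2 hle]
    rw [h4]
    exact Submodule.FG.map _ (IsNoetherian.noetherian _)

/-- **There are only countably many such functions.** -/
theorem countable_pd [Countable A] [Module.Finite ℤ A] (M : ℕ) :
    Set.Countable {c : A × ℚ → ℤ | IsPD c ∧ (∀ q : ℚ, (∀ k : ℤ, q ≠ k) → c (0, q) = 0) ∧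
      c (0, 0) ≤ M} := by
  classical
  refine Set.Countable.mono ?_ (Set.countable_range
    (fun l : List (Finset (A × ℚ) × Finset ((A × ℚ) × ℤ)) => fun g : A × ℚ =>
      (l.map fun d => decode d g).sum))
  rintro c ⟨hc, hM, hM0⟩
  obtain ⟨L, hL, hsum⟩ := exists_elementary hc
  have h1 : ∀ p ∈ L, ∃ d, decode d = p := fun p hp =>
    exists_decode (hL p hp) (periods_fg hc hM hM0 hL hsum hp)
  have h2 : ∃ l : List (Finset (A × ℚ) × Finset ((A × ℚ) × ℤ)), l.map decode = L := by
    clear hsum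
    induction L with
    | nil => exact ⟨[], rfl⟩
    | cons p L ih =>
      obtain ⟨d, hd⟩ := h1 p List.mem_cons_self
      obtain ⟨l, hl⟩ := ih (fun x hx => hL x (List.mem_cons_of_mem _ hx))
        fun x hx => h1 x (List.mem_cons_of_mem _ hx)
      exact ⟨d :: l, by rw [List.map_cons, hd, hl]⟩
  obtain ⟨l, hl⟩ := h2
  refine ⟨l, ?_⟩
  funext g
  rw [hsum, ← hl, List.map_map]
  rfl

end

end Pool.Agent.H848.PD
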