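import Mathlib

/-!
# Integer valued positive definite functions on abelian groups

Every integer valued positive definite function on an abelian group is a finite sum of such functions
which are carried by finitely many cosets of their group of periods.
-/

set_option autoImplicit false

namespace Pool.Agent.H848.PD

open Filter Topology

/-- The integer valued function `b` on the abelian group `Γ` is positive definite. -/
structure IsPD {Γ : Type*} [AddCommGroup Γ] (b : Γ → ℤ) : Prop where
  symm : ∀ g, b (-g) = b g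
  nonneg : ∀ c : Γ →₀ ℝ, 0 ≤ c.sum fun g x => c.sum fun h y => x * y * (b (g - h) : ℝ)

section GNS

variable {Γ : Type} [AddCommGroup Γ]

/-- the form -/
noncomputable def form (b : Γ → ℝ) (f g : Γ →₀ ℝ) : ℝ :=
  f.sum fun j x => g.sum fun k y => x * y * b (j - k)

theorem form_symm {b : Γ → ℝ} (hb : ∀ g, b (-g) = b g) (f g : Γ →₀ ℝ) :
    form b f g = form b g f := by
  unfold form
  rw [Finsupp.sum_comm]
  refine Finsupp.sum_congr fun j _ => Finsupp.sum_congr fun k _ => ?_
  rw [← hb (j - k), neg_sub]
  ring

theorem form_add (b : Γ → ℝ) (f g h : Γ →₀ ℝ) : form b (f + g) h = form b f h + form b g h := by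
  unfold form
  rw [Finsupp.sum_add_index']
  · intro j
    simp
  · intro j x y
    rw [← Finsupp.sum_add]
    refine Finsupp.sum_congr fun k _ => ?_
    ring

theorem form_smul (b : Γ → ℝ) (r : ℝ) (f g : Γ →₀ ℝ) : form b (r • f) g = r * form b f g := by
  unfold form
  rw [Finsupp.sum_smul_index]
  · rw [Finsupp.mul_sum]
    refine Finsupp.sum_congr fun j _ => ?_
    rw [Finsupp.mul_sum]
    refine Finsupp.sum_congr fun k _ => ?_
    ring
  · intro j
    simp

theorem form_single (b : Γ → ℝ) (j k : Γ) :
    form b (Finsupp.single j 1) (Finsupp.single k 1) = b (j - k) := by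
  unfold form
  rw [Finsupp.sum_single_index, Finsupp.sum_single_index]
  · ring
  · ring
  · simp

/-- the space of finite combinations -/
def V (b : Γ → ℤ) (_ : IsPD b) : Type := Γ →₀ ℝ

variable {b : Γ → ℤ} (hb : IsPD b)

noncomputable instance : AddCommGroup (V b hb) := inferInstanceAs (AddCommGroup (Γ →₀ ℝ))
noncomputable instance : Module ℝ (V b hb) := inferInstanceAs (Module ℝ (Γ →₀ ℝ))

@[instance_reducible]
noncomputable def core : PreInnerProductSpace.Core ℝ (V b hb) where
  inner f g := form (fun g => (b g : ℝ)) f g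
  conj_inner_symm f g := by
    simp only [conj_trivial]
    exact form_symm (fun g => by rw [hb.symm]) g f
  re_inner_nonneg f := hb.nonneg f
  add_left f g h := form_add _ f g h
  smul_left f g r := by
    simp only [conj_trivial]
    exact form_smul _ r f g

noncomputable instance instSNACG : SeminormedAddCommGroup (V b hb) :=
  InnerProductSpace.Core.toSeminormedAddCommGroup (𝕜 := ℝ) (c := core hb)

noncomputable instance instIPS : InnerProductSpace ℝ (V b hb) := .ofCore (core hb)

/-- the vectors -/
noncomputable def e0 (k : Γ) : V b hb := (Finsupp.single k 1 : Γ →₀ ℝ)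

theorem inner_e0 (j k : Γ) : inner ℝ (e0 hb j) (e0 hb k) = (b (j - k) : ℝ) := form_single _ j k

include hb in
/-- there are vectors with Gram matrix `b (j - k)` -/
theorem exists_vectors : ∃ (H : Type) (_ : NormedAddCommGroup H) (_ : InnerProductSpace ℝ H)
    (_ : CompleteSpace H) (e : Γ → H), ∀ j k, inner ℝ (e j) (e k) = (b (j - k) : ℝ) := by
  refine ⟨UniformSpace.Completion (V b hb), inferInstance, inferInstance, inferInstance,
    fun k => (e0 hb k : UniformSpace.Completion (V b hb)), fun j k => ?_⟩
  rw [UniformSpace.Completion.inner_coe, inner_e0]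

end GNS

section Weak

variable {H : Type*} [NormedAddCommGroup H] [InnerProductSpace ℝ H] [CompleteSpace H]

/-- weak limits of bounded sequences along ultrafilters -/
theorem weak_limit {α : Type*} (U : Ultrafilter α) (x : α → H) (C : ℝ) (hC : ∀ t, ‖x t‖ ≤ C) :
    ∃ f : H, ∀ y, Tendsto (fun t => inner ℝ (x t) y) U (𝓝 (inner ℝ f y)) := by
  have h1 : ∀ y : H, ∃ l : ℝ, |l| ≤ C * ‖y‖ ∧ Tendsto (fun t => inner ℝ (x t) y) U (𝓝 l) := by
    intro y
    have h3 : ∀ t, inner ℝ (x t) y ∈ Set.Icc (-(C * ‖y‖)) (C * ‖y‖) := by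
      intro t
      rw [Set.mem_Icc, ← abs_le]
      exact (abs_real_inner_le_norm _ _).trans
        (mul_le_mul_of_nonneg_right (hC t) (norm_nonneg _))
    obtain ⟨l, hl, h4⟩ := (isCompact_Icc (a := -(C * ‖y‖)) (b := C * ‖y‖)).ultrafilter_le_nhds
      (U.map fun t => inner ℝ (x t) y) (by
        rw [Ultrafilter.coe_map, Filter.le_principal_iff, Filter.mem_map]
        exact Filter.Eventually.of_forall h3)
    exact ⟨l, abs_le.2 (Set.mem_Icc.1 hl), h4⟩
  choose φ hφ1 hφ2 using h1
  let L : H →ₗ[ℝ] ℝ :=
    { toFun := φ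
      map_add' := fun y z => by
        refine tendsto_nhds_unique (hφ2 (y + z)) ?_
        refine ((hφ2 y).add (hφ2 z)).congr fun t => ?_
        rw [inner_add_right]
      map_smul' := fun r y => by
        refine tendsto_nhds_unique (hφ2 (r • y)) ?_
        refine ((hφ2 y).const_mul r).congr fun t => ?_
        rw [real_inner_smul_right] }
  let Lc : H →L[ℝ] ℝ := L.mkContinuous C fun y => by
    rw [Real.norm_eq_abs]
    exact hφ1 y
  refine ⟨(InnerProductSpace.toDual ℝ H).symm Lc, fun y => ?_⟩
  rw [InnerProductSpace.toDual_symm_apply]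
  exact hφ2 y

end Weak

section Basic

variable {Γ : Type} [AddCommGroup Γ] {b : Γ → ℤ}

theorem IsPD.abs_le (hb : IsPD b) (g : Γ) : |b g| ≤ b 0 := by
  obtain ⟨H, _, _, _, e, he⟩ := exists_vectors hb
  have h := real_inner_mul_inner_self_le (e g) (e 0)
  rw [he, he, he, sub_zero, sub_self, sub_self] at h
  have h0 : (0 : ℝ) ≤ b 0 := by
    have := real_inner_self_nonneg (x := e 0)
    rwa [he, sub_self] at this
  have h1 : (|(b g : ℝ)|) ≤ b 0 := abs_le_of_sq_le_sq (by nlinarith) h0
  exact_mod_cast h1

theorem IsPD.zero_nonneg (hb : IsPD b) : 0 ≤ b 0 := (abs_nonneg _).trans (hb.abs_le 0)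

theorem IsPD.eq_zero (hb : IsPD b) (h : b 0 = 0) (g : Γ) : b g = 0 := by
  have := hb.abs_le g
  rw [h] at this
  exact abs_nonpos_iff.1 this

/-- the values `b 0` give periods -/
theorem IsPD.period (hb : IsPD b) {h : Γ} (hh : b h = b 0) (g : Γ) : b (g + h) = b g := by
  obtain ⟨H, _, _, _, e, he⟩ := exists_vectors hb
  have h1 : inner ℝ (e h - e 0) (e h - e 0) = (0 : ℝ) := by
    rw [inner_sub_left, inner_sub_right, inner_sub_right, he, he, he, he, sub_self, sub_zero,
      sub_self, zero_sub, hb.symm, hh]
    ring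
  rw [inner_self_eq_zero, sub_eq_zero] at h1
  have h2 := he (-g) h
  have h3 := he (-g) 0
  rw [h1, h3] at h2
  have h4 : b (-g - 0) = b (-g - h) := by exact_mod_cast h2
  rw [sub_zero, hb.symm] at h4
  rw [h4, ← hb.symm (-g - h)]
  congr 1
  abel

/-- the group of the periods -/
def IsPD.periods (hb : IsPD b) : AddSubgroup Γ where
  carrier := {h | b h = b 0}
  zero_mem' := rfl
  add_mem' := fun {x y} (hx : b x = b 0) (hy : b y = b 0) => by
    show b (x + y) = b 0
    rw [hb.period hy, hx]
  neg_mem' := fun {x} (hx : b x = b 0) => by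
    show b (-x) = b 0
    rw [hb.symm, hx]

end Basic

end Pool.Agent.H848.PD
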