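import Pool.Agent.H848.PD.Basic

/-!
# The structure of integer valued positive definite functions
-/

set_option autoImplicit false

namespace Pool.Agent.H848.PD

open Filter Topology

theorem exists_const {α : Type*} (U : Ultrafilter α) (F : α → ℤ) (M : ℤ) (hM : ∀ a, |F a| ≤ M) :
    ∃ c, ∀ᶠ a in (U : Filter α), F a = c := by
  have h1 : Set.Icc (-M) M ∈ U.map F := by
    rw [Ultrafilter.mem_map]
    refine Filter.mem_of_superset Filter.univ_mem fun a _ => ?_
    exact abs_le.1 (hM a)
  obtain ⟨x, -, hx⟩ := Ultrafilter.eq_pure_of_finite_mem (Set.finite_Icc _ _) h1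
  refine ⟨x, ?_⟩
  have h2 : ({x} : Set ℤ) ∈ U.map F := by
    rw [hx]
    exact rfl
  exact h2

section

variable {Γ : Type} [AddCommGroup Γ] {b : Γ → ℤ}

/-- sums of vectors -/
theorem inner_sum {H : Type} [NormedAddCommGroup H] [InnerProductSpace ℝ H] {b : Γ → ℤ}
    {e : Γ → H} (he : ∀ j k, inner ℝ (e j) (e k) = (b (j - k) : ℝ)) (c : Γ →₀ ℝ) :
    inner ℝ (c.sum fun g x => x • e g) (c.sum fun g x => x • e g) =
      c.sum fun g x => c.sum fun h y => x * y * (b (g - h) : ℝ) := by
  rw [Finsupp.sum, sum_inner, Finsupp.sum]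
  refine Finset.sum_congr rfl fun j _ => ?_
  rw [_root_.inner_sum, Finsupp.sum]
  refine Finset.sum_congr rfl fun k _ => ?_
  rw [real_inner_smul_left, real_inner_smul_right, he]
  ring

theorem isPD_of_vectors {H : Type} [NormedAddCommGroup H] [InnerProductSpace ℝ H] {b : Γ → ℤ}
    {e : Γ → H} (he : ∀ j k, inner ℝ (e j) (e k) = (b (j - k) : ℝ)) : IsPD b where
  symm g := by
    have h1 := he 0 g
    have h2 := he g 0
    rw [real_inner_comm, h2, sub_zero, zero_sub] at h1
    exact_mod_cast h1.symm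
  nonneg c := by
    rw [← inner_sum he]
    exact real_inner_self_nonneg

/-- One step: the weak limit along an ultrafilter of the translates. -/
theorem step (hb : IsPD b) (U : Ultrafilter Γ) : ∃ c b₁ : Γ → ℤ,
    (∀ g, ∀ᶠ d in (U : Filter Γ), b (g + d) = c g) ∧
    (∀ g, ∀ᶠ d in (U : Filter Γ), c (g - d) = b₁ g) ∧
    IsPD b₁ ∧ IsPD (fun g => b g - b₁ g) ∧ ∀ g, (c g) ^ 2 ≤ b₁ 0 * b 0 := by
  obtain ⟨H, _, _, _, e, he⟩ := exists_vectors hb
  have hc : ∀ g, ∃ c, ∀ᶠ d in (U : Filter Γ), b (g + d) = c := fun g =>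
    exists_const U _ (b 0) fun d => hb.abs_le _
  choose c hc using hc
  have hnorm : ∀ g, ‖e g‖ ^ 2 = (b 0 : ℝ) := by
    intro g
    rw [← real_inner_self_eq_norm_sq, he, sub_self]
  have hnorm' : ∀ g, ‖e g‖ ≤ Real.sqrt (b 0) := by
    intro g
    rw [← hnorm g, Real.sqrt_sq (norm_nonneg _)]
  have hf : ∀ g, ∃ f : H, ∀ y, Tendsto (fun d => inner ℝ (e (g + d)) y) U (𝓝 (inner ℝ f y)) :=
    fun g => weak_limit U (fun d => e (g + d)) _ fun d => hnorm' _
  choose f hf using hf
  -- the inner products of `f` and `e`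
  have hfe : ∀ g h, inner ℝ (f g) (e h) = (c (g - h) : ℝ) := by
    intro g h
    refine tendsto_nhds_unique (hf g (e h)) ?_
    refine Tendsto.congr' ?_ (tendsto_const_nhds (x := (c (g - h) : ℝ)))
    filter_upwards [hc (g - h)] with d hd
    rw [he, ← hd]
    congr 2
    abel
  have hcb : ∀ g, |c g| ≤ b 0 := by
    intro g
    obtain ⟨d, hd⟩ := (hc g).exists
    rw [← hd]
    exact hb.abs_le _
  have hb1 : ∀ g, ∃ b₁, ∀ᶠ d in (U : Filter Γ), c (g - d) = b₁ := fun g =>
    exists_const U _ (b 0) fun d => hcb _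
  choose b₁ hb₁ using hb1
  have hff : ∀ g h, inner ℝ (f g) (f h) = (b₁ (g - h) : ℝ) := by
    intro g h
    have h1 : Tendsto (fun d => inner ℝ (e (h + d)) (f g)) U (𝓝 (inner ℝ (f h) (f g))) :=
      hf h (f g)
    rw [real_inner_comm]
    refine tendsto_nhds_unique h1 ?_
    refine Tendsto.congr' ?_ (tendsto_const_nhds (x := (b₁ (g - h) : ℝ)))
    filter_upwards [hb₁ (g - h)] with d hd
    rw [real_inner_comm, hfe, ← hd]
    congr 2
    abel
  refine ⟨c, b₁, hc, hb₁, isPD_of_vectors hff, ⟨fun g => ?_, fun κ => ?_⟩, fun g => ?_⟩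
  · show b (-g) - b₁ (-g) = b g - b₁ g
    rw [hb.symm, (isPD_of_vectors hff).symm]
  · -- the norm of a weak limit
    have h1 : (κ.sum fun g x => κ.sum fun h y => x * y * ((b (g - h) - b₁ (g - h) : ℤ) : ℝ)) =
        (κ.sum fun g x => κ.sum fun h y => x * y * (b (g - h) : ℝ)) -
          κ.sum fun g x => κ.sum fun h y => x * y * (b₁ (g - h) : ℝ) := by
      rw [← Finsupp.sum_sub]
      refine Finsupp.sum_congr fun g _ => ?_
      rw [← Finsupp.sum_sub]
      refine Finsupp.sum_congr fun h _ => ?_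
      push_cast
      ring
    show 0 ≤ κ.sum fun g x => κ.sum fun h y => x * y * ((b (g - h) - b₁ (g - h) : ℤ) : ℝ)
    rw [h1, ← inner_sum he, ← inner_sum hff]
    set E : Γ → H := fun d => κ.sum fun g x => x • e (g + d) with hE
    set F : H := κ.sum fun g x => x • f g with hF
    have h2 : ∀ d, inner ℝ (E d) (E d) =
        inner ℝ (κ.sum fun g x => x • e g) (κ.sum fun g x => x • e g) := by
      intro d
      have h3 : ∀ j k, inner ℝ (e (j + d)) (e (k + d)) = (b (j - k) : ℝ) := by
        intro j k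
        rw [he]
        congr 2
        abel
      rw [inner_sum he, inner_sum h3]
    have h4 : ∀ y, Tendsto (fun d => inner ℝ (E d) y) U (𝓝 (inner ℝ F y)) := by
      intro y
      simp only [hE, hF, Finsupp.sum, sum_inner, real_inner_smul_left]
      exact tendsto_finsetSum _ fun g _ => (hf g y).const_mul _
    have h5 : inner ℝ F F ≤ ‖κ.sum fun g x => x • e g‖ * ‖F‖ := by
      refine le_of_tendsto (h4 F) (Eventually.of_forall fun d => ?_)
      refine (real_inner_le_norm _ _).trans ?_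
      have h6 := h2 d
      rw [real_inner_self_eq_norm_sq, real_inner_self_eq_norm_sq] at h6
      have h7 : ‖E d‖ = ‖κ.sum fun g x => x • e g‖ :=
        (sq_eq_sq₀ (norm_nonneg _) (norm_nonneg _)).1 h6
      rw [h7]
    rw [real_inner_self_eq_norm_sq] at h5 ⊢
    rw [real_inner_self_eq_norm_sq]
    have h8 : ‖F‖ ≤ ‖κ.sum fun g x => x • e g‖ := by
      rcases (norm_nonneg F).eq_or_lt with h9 | h9
      · rw [← h9]
        exact norm_nonneg _
      · rw [sq] at h5
        exact le_of_mul_le_mul_right h5 h9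
    nlinarith [norm_nonneg F, norm_nonneg (κ.sum fun g x => x • e g)]
  · have h1 := real_inner_mul_inner_self_le (f g) (e 0)
    rw [hfe, hff, he, sub_zero, sub_self, sub_self, ← sq] at h1
    exact_mod_cast h1

/-- An elementary function: it is not zero, and it is carried by finitely many cosets of its group of
periods. -/
structure IsElementary (p : Γ → ℤ) : Prop where
  pd : IsPD p
  pos : 0 < p 0
  fin : ∃ s : Finset Γ, ∀ g, p g ≠ 0 → ∃ a ∈ s, p (g - a) = p 0

/-- splitting a function which is not elementary -/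
theorem exists_split (hb : IsPD b) (hpos : 0 < b 0) (hne : ¬ IsElementary b) :
    ∃ b₁ : Γ → ℤ, IsPD b₁ ∧ IsPD (fun g => b g - b₁ g) ∧ 0 < b₁ 0 ∧ b₁ 0 < b 0 := by
  have h1 : ∀ s : Finset Γ, ∃ g, b g ≠ 0 ∧ ∀ a ∈ s, b (g - a) ≠ b 0 := by
    by_contra hcon
    push Not at hcon
    obtain ⟨s, hs⟩ := hcon
    exact hne ⟨hb, hpos, s, hs⟩
  choose γ hγ1 hγ2 using h1
  set U : Ultrafilter Γ := Ultrafilter.of (map γ atTop) with hU
  have hle : (U : Filter Γ) ≤ map γ atTop := Ultrafilter.of_le _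
  have hU1 : ∀ᶠ d in (U : Filter Γ), b d ≠ 0 :=
    hle (Filter.eventually_map.2 (Eventually.of_forall hγ1))
  have hU2 : ∀ a, ∀ᶠ d in (U : Filter Γ), b (d - a) ≠ b 0 := by
    intro a
    refine hle (Filter.eventually_map.2 ?_)
    filter_upwards [eventually_ge_atTop ({a} : Finset Γ)] with s hs
    exact hγ2 s a (hs (Finset.mem_singleton_self a))
  obtain ⟨c, b₁, h1, h2, h3, h4, h5⟩ := step hb U
  have hc0 : c 0 ≠ 0 := by
    obtain ⟨d, hd1, hd2⟩ := ((h1 0).and hU1).exists
    rw [← hd1, zero_add]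
    exact hd2
  have hb1 : 0 < b₁ 0 := by
    have h6 := h5 0
    have h7 : 0 < (c 0) ^ 2 := by positivity
    exact pos_of_mul_pos_left (h7.trans_le h6) hpos.le
  refine ⟨b₁, h3, h4, hb1, lt_of_le_of_ne ?_ fun heq => ?_⟩
  · have := h4.zero_nonneg
    linarith
  · obtain ⟨d, hd⟩ := (h2 0).exists
    rw [heq, zero_sub] at hd
    obtain ⟨d', hd1, hd2⟩ := ((h1 (-d)).and (hU2 d)).exists
    rw [hd] at hd1
    apply hd2
    rw [← hd1]
    congr 1
    abel

/-- **Integer valued positive definite functions are sums of elementary ones.** -/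
theorem exists_elementary (hb : IsPD b) : ∃ l : List (Γ → ℤ), (∀ p ∈ l, IsElementary p) ∧
    ∀ g, b g = (l.map fun p => p g).sum := by
  induction h : (b 0).toNat using Nat.strong_induction_on generalizing b with
  | _ n ih =>
    rcases hb.zero_nonneg.eq_or_lt with h0 | h0
    · exact ⟨[], by simp, fun g => by simp [hb.eq_zero h0.symm g]⟩
    · by_cases hel : IsElementary b
      · exact ⟨[b], by simpa using hel, fun g => by simp⟩
      · obtain ⟨b₁, h1, h2, h3, h4⟩ := exists_split hb h0 hel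
        obtain ⟨l₁, hl1, hl1'⟩ := ih (b₁ 0).toNat (by omega) h1 rfl
        obtain ⟨l₂, hl2, hl2'⟩ := ih (b 0 - b₁ 0).toNat (by omega) h2 rfl
        refine ⟨l₁ ++ l₂, fun p hp => ?_, fun g => ?_⟩
        · rcases List.mem_append.1 hp with h | h
          · exact hl1 p h
          · exact hl2 p h
        · rw [List.map_append, List.sum_append, ← hl1', ← hl2']
          ring

end

end Pool.Agent.H848.PD
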